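import Mathlib

/-!
# Whitehead torsion: certificates and functoriality
-/

set_option autoImplicit false

namespace Pool.Agent.K4H37.UG

open Matrix
open scoped commutatorElement

/-- the integral group ring -/
abbrev GR (G : Type) : Type := MonoidAlgebra ℤ G

/-- the sum of the absolute values of the coefficients -/
def size1 {G : Type} (x : GR G) : ℕ := ∑ g ∈ x.coeff.support, (x.coeff g).natAbs

/-- the sum of the absolute values of all coefficients of all entries -/
def size {G : Type} {κ : Type} [Fintype κ] (M : Matrix κ κ (GR G)) : ℕ := ∑ i, ∑ j, size1 (M i j)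

section size

variable {G H : Type}

theorem size1_eq (x : GR G) (S : Finset G) (hS : x.coeff.support ⊆ S) :
    size1 x = ∑ g ∈ S, (x.coeff g).natAbs := by
  unfold size1
  apply Finset.sum_subset hS
  intro g _ hg
  rw [Finsupp.notMem_support_iff.1 hg]
  rfl

theorem size1_add (x y : GR G) : size1 (x + y) ≤ size1 x + size1 y := by
  classical
  have h1 : (x + y).coeff.support ⊆ x.coeff.support ∪ y.coeff.support := Finsupp.support_add
  rw [size1_eq (x + y) _ h1, size1_eq x _ Finset.subset_union_left,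
    size1_eq y _ Finset.subset_union_right, ← Finset.sum_add_distrib]
  apply Finset.sum_le_sum
  intro g _
  rw [MonoidAlgebra.coeff_add, Finsupp.add_apply]
  exact Int.natAbs_add_le _ _

theorem size1_sum {ι : Type} (s : Finset ι) (f : ι → GR G) :
    size1 (∑ i ∈ s, f i) ≤ ∑ i ∈ s, size1 (f i) := by
  classical
  induction s using Finset.induction_on with
  | empty => simp [size1]
  | insert a s ha ih =>
    rw [Finset.sum_insert ha, Finset.sum_insert ha]
    exact (size1_add _ _).trans (Nat.add_le_add_left ih _)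

theorem size1_single (g : G) (a : ℤ) : size1 (MonoidAlgebra.single g a) = a.natAbs := by
  classical
  rw [size1_eq _ {g} (by
    rw [MonoidAlgebra.coeff_single]
    exact Finsupp.support_single_subset)]
  simp

theorem size1_mapDomain (f : G → H) (x : GR G) :
    size1 (MonoidAlgebra.mapDomain f x) ≤ size1 x := by
  have h : MonoidAlgebra.mapDomain f x =
      ∑ g ∈ x.coeff.support, MonoidAlgebra.single (f g) (x.coeff g) := by
    apply MonoidAlgebra.coeff_injective
    rw [MonoidAlgebra.coeff_sum]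
    rfl
  rw [h]
  refine (size1_sum _ _).trans ?_
  unfold size1
  apply Finset.sum_le_sum
  intro g _
  exact (size1_single _ _).le

theorem size_map {κ : Type} [Fintype κ] (f : G → H) (M : Matrix κ κ (GR G)) :
    size (M.map (MonoidAlgebra.mapDomain f)) ≤ size M :=
  Finset.sum_le_sum fun _ _ => Finset.sum_le_sum fun _ _ => size1_mapDomain f _

end size

section maps

variable {G H K : Type} [Group G] [Group H] [Group K]

/-- the homomorphism of group rings given by a homomorphism of groups -/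
noncomputable def rmap (φ : G →* H) : GR G →+* GR H := MonoidAlgebra.mapDomainRingHom ℤ φ

theorem rmap_apply (φ : G →* H) (x : GR G) : rmap φ x = MonoidAlgebra.mapDomain φ x := rfl

theorem rmap_comp (φ : G →* H) (ψ : H →* K) (x : GR G) : rmap ψ (rmap φ x) = rmap (ψ.comp φ) x := by
  have := MonoidAlgebra.mapDomainRingHom_comp (R := ℤ) ψ φ
  unfold rmap
  rw [this]
  rfl

theorem rmap_single (φ : G →* H) (g : G) (a : ℤ) :
    rmap φ (MonoidAlgebra.single g a) = MonoidAlgebra.single (φ g) a :=
  MonoidAlgebra.mapDomain_single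

/-- the homomorphism of matrix rings -/
noncomputable def mmap (φ : G →* H) (κ : Type) [Fintype κ] [DecidableEq κ] :
    Matrix κ κ (GR G) →+* Matrix κ κ (GR H) := (rmap φ).mapMatrix

/-- the homomorphism of the groups of invertible matrices -/
noncomputable def umap (φ : G →* H) (κ : Type) [Fintype κ] [DecidableEq κ] :
    (Matrix κ κ (GR G))ˣ →* (Matrix κ κ (GR H))ˣ := Units.map (mmap φ κ : _ →* _)

theorem umap_val (φ : G →* H) {κ : Type} [Fintype κ] [DecidableEq κ]
    (A : (Matrix κ κ (GR G))ˣ) : (umap φ κ A).val = A.val.map (rmap φ) := rfl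

theorem umap_inv_val (φ : G →* H) {κ : Type} [Fintype κ] [DecidableEq κ]
    (A : (Matrix κ κ (GR G))ˣ) : ((umap φ κ A)⁻¹).val = (A⁻¹).val.map (rmap φ) := rfl

theorem umap_comp (φ : G →* H) (ψ : H →* K) {κ : Type} [Fintype κ] [DecidableEq κ]
    (A : (Matrix κ κ (GR G))ˣ) : umap ψ κ (umap φ κ A) = umap (ψ.comp φ) κ A := by
  apply Units.ext
  ext1 i j
  exact rmap_comp φ ψ _

theorem umap_id {κ : Type} [Fintype κ] [DecidableEq κ]
    (A : (Matrix κ κ (GR G))ˣ) : umap (MonoidHom.id G) κ A = A := by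
  apply Units.ext
  ext1 i j
  change rmap (MonoidHom.id G) _ = _
  unfold rmap
  rw [MonoidAlgebra.mapDomainRingHom_id]
  rfl

theorem size_umap (φ : G →* H) {κ : Type} [Fintype κ] [DecidableEq κ]
    (A : (Matrix κ κ (GR G))ˣ) : size (umap φ κ A).val ≤ size A.val :=
  size_map φ _

theorem size_umap_inv (φ : G →* H) {κ : Type} [Fintype κ] [DecidableEq κ]
    (A : (Matrix κ κ (GR G))ˣ) : size ((umap φ κ A)⁻¹).val ≤ size (A⁻¹).val :=
  size_map φ _

end maps

section cert

variable {G H : Type} [Group G] [Group H] {n : ℕ}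

/-- the product of the commutators of the pairs in a list -/
def comProd {U : Type} [Group U] (L : List (U × U)) : U :=
  (L.map fun p : U × U => ⁅p.1, p.2⁆).prod

/-- The class of `A` in the Whitehead group is zero (the form of the frozen statement). -/
def ZeroInWh (A : (Matrix (Fin n) (Fin n) (GR G))ˣ) : Prop :=
  ∃ (m : ℕ) (g : G) (ε : ℤˣ)
    (C : (Matrix (Fin n ⊕ Fin (m + 1)) (Fin n ⊕ Fin (m + 1)) (MonoidAlgebra ℤ G))ˣ),
    C ∈ commutator (Matrix (Fin n ⊕ Fin (m + 1)) (Fin n ⊕ Fin (m + 1)) (MonoidAlgebra ℤ G))ˣ ∧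
    Matrix.fromBlocks A.val 0 0 (1 : Matrix (Fin (m + 1)) (Fin (m + 1)) (MonoidAlgebra ℤ G)) =
      Matrix.diagonal (fun i : Fin n ⊕ Fin (m + 1) =>
          if i = Sum.inr (0 : Fin (m + 1)) then
            (MonoidAlgebra.single g ((ε : ℤ)) : MonoidAlgebra ℤ G) else 1) * C.val

/-- A certificate of size `N` for the vanishing of the class of `A` in the Whitehead group: after
stabilisation by at most `N + 1` rows and columns, `A` is `± g` on one diagonal entry times the
product of at most `N` commutators `[X, Y]`, where the sums of the absolute values of all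
coefficients of `X`, `X⁻¹`, `Y` and `Y⁻¹` are at most `N`. -/
def Cert (N : ℕ) (A : (Matrix (Fin n) (Fin n) (GR G))ˣ) : Prop :=
  ∃ (m : ℕ) (g : G) (ε : ℤˣ)
    (L : List ((Matrix (Fin n ⊕ Fin (m + 1)) (Fin n ⊕ Fin (m + 1)) (MonoidAlgebra ℤ G))ˣ ×
      (Matrix (Fin n ⊕ Fin (m + 1)) (Fin n ⊕ Fin (m + 1)) (MonoidAlgebra ℤ G))ˣ)),
    m ≤ N ∧ L.length ≤ N ∧
    (∀ p ∈ L, size p.1.val ≤ N ∧ size (p.1⁻¹).val ≤ N ∧ size p.2.val ≤ N ∧
      size (p.2⁻¹).val ≤ N) ∧
    Matrix.fromBlocks A.val 0 0 (1 : Matrix (Fin (m + 1)) (Fin (m + 1)) (MonoidAlgebra ℤ G)) =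
      Matrix.diagonal (fun i : Fin n ⊕ Fin (m + 1) =>
          if i = Sum.inr (0 : Fin (m + 1)) then
            (MonoidAlgebra.single g ((ε : ℤ)) : MonoidAlgebra ℤ G) else 1) *
        (comProd L).val

theorem Cert.mono {N N' : ℕ} {A : (Matrix (Fin n) (Fin n) (GR G))ˣ} (h : Cert N A)
    (hN : N ≤ N') : Cert N' A := by
  obtain ⟨m, g, ε, L, h1, h2, h3, h4⟩ := h
  exact ⟨m, g, ε, L, h1.trans hN, h2.trans hN, fun p hp => ⟨(h3 p hp).1.trans hN,
    (h3 p hp).2.1.trans hN, (h3 p hp).2.2.1.trans hN, (h3 p hp).2.2.2.trans hN⟩, h4⟩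

theorem exists_list {U : Type} [Group U] {C : U} (hC : C ∈ commutator U) :
    ∃ L : List (U × U), C = comProd L := by
  rw [commutator_eq_closure] at hC
  induction hC using Subgroup.closure_induction with
  | mem x hx =>
    obtain ⟨a, b, rfl⟩ := hx
    exact ⟨[(a, b)], by simp [comProd]⟩
  | one => exact ⟨[], rfl⟩
  | mul x y _ _ hx hy =>
    obtain ⟨L, rfl⟩ := hx
    obtain ⟨L', rfl⟩ := hy
    exact ⟨L ++ L', by simp [comProd]⟩
  | inv x _ hx =>
    obtain ⟨L, rfl⟩ := hx
    refine ⟨(L.map fun p => (p.2, p.1)).reverse, ?_⟩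
    unfold comProd
    rw [List.prod_inv_reverse, List.map_reverse, List.map_map, List.map_map]
    congr 2
    apply List.map_congr_left
    intro p _
    exact commutatorElement_inv p.1 p.2

theorem prod_mem' {U : Type} [Group U] (L : List (U × U)) : comProd L ∈ commutator U := by
  apply Subgroup.list_prod_mem
  intro x hx
  rw [List.mem_map] at hx
  obtain ⟨p, _, rfl⟩ := hx
  exact Subgroup.commutator_mem_commutator (Subgroup.mem_top _) (Subgroup.mem_top _)

theorem zero_iff (A : (Matrix (Fin n) (Fin n) (GR G))ˣ) : ZeroInWh A ↔ ∃ N, Cert N A := by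
  constructor
  · rintro ⟨m, g, ε, C, hC, h⟩
    obtain ⟨L, rfl⟩ := exists_list hC
    refine ⟨m + L.length + (L.map fun p => size p.1.val + size (p.1⁻¹).val + size p.2.val +
      size (p.2⁻¹).val).sum, m, g, ε, L, by omega, by omega, ?_, h⟩
    intro p hp
    have : size p.1.val + size (p.1⁻¹).val + size p.2.val + size (p.2⁻¹).val ≤
        (L.map fun p => size p.1.val + size (p.1⁻¹).val + size p.2.val +
      size (p.2⁻¹).val).sum := List.single_le_sum (fun _ _ => Nat.zero_le _) _
        (List.mem_map.2 ⟨p, hp, rfl⟩)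
    refine ⟨?_, ?_, ?_, ?_⟩ <;> omega
  · rintro ⟨N, m, g, ε, L, _, _, _, h⟩
    exact ⟨m, g, ε, _, prod_mem' L, h⟩

theorem Cert.map {N : ℕ} {A : (Matrix (Fin n) (Fin n) (GR G))ˣ} (h : Cert N A) (φ : G →* H) :
    Cert N (umap φ (Fin n) A) := by
  obtain ⟨m, g, ε, L, h1, h2, h3, h4⟩ := h
  refine ⟨m, φ g, ε, L.map fun p => (umap φ _ p.1, umap φ _ p.2), h1, by simpa using h2, ?_, ?_⟩
  · intro p hp
    rw [List.mem_map] at hp
    obtain ⟨q, hq, rfl⟩ := hp
    obtain ⟨a1, a2, a3, a4⟩ := h3 q hq
    exact ⟨(size_umap φ _).trans a1, (size_umap_inv φ _).trans a2, (size_umap φ _).trans a3,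
      (size_umap_inv φ _).trans a4⟩
  · have h5 := congrArg (mmap φ (Fin n ⊕ Fin (m + 1))) h4
    rw [map_mul] at h5
    have e1 : mmap φ (Fin n ⊕ Fin (m + 1)) (Matrix.fromBlocks A.val 0 0 1) =
        Matrix.fromBlocks (umap φ (Fin n) A).val 0 0 1 := by
      change (Matrix.fromBlocks A.val 0 0 1).map (rmap φ) = _
      rw [Matrix.fromBlocks_map, umap_val]
      rw [Matrix.map_zero _ (map_zero (rmap φ)), Matrix.map_zero _ (map_zero (rmap φ)),
        Matrix.map_one _ (map_zero (rmap φ)) (map_one (rmap φ))]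
    have e2 : mmap φ (Fin n ⊕ Fin (m + 1)) (Matrix.diagonal (fun i : Fin n ⊕ Fin (m + 1) =>
          if i = Sum.inr (0 : Fin (m + 1)) then
            (MonoidAlgebra.single g ((ε : ℤ)) : MonoidAlgebra ℤ G) else 1)) =
        Matrix.diagonal (fun i : Fin n ⊕ Fin (m + 1) =>
          if i = Sum.inr (0 : Fin (m + 1)) then
            (MonoidAlgebra.single (φ g) ((ε : ℤ)) : MonoidAlgebra ℤ H) else 1) := by
      change (Matrix.diagonal _).map (rmap φ) = _
      rw [Matrix.diagonal_map (map_zero _)]
      congr 1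
      funext i
      by_cases hi : i = Sum.inr (0 : Fin (m + 1))
      · rw [if_pos hi, if_pos hi]
        exact rmap_single φ g _
      · rw [if_neg hi, if_neg hi]
        exact map_one _
    have e3 : mmap φ (Fin n ⊕ Fin (m + 1)) (comProd L).val =
        (comProd (L.map fun p => (umap φ _ p.1, umap φ _ p.2))).val := by
      have : umap φ (Fin n ⊕ Fin (m + 1)) (comProd L) =
          comProd (L.map fun p => (umap φ _ p.1, umap φ _ p.2)) := by
        unfold comProd
        rw [map_list_prod, List.map_map, List.map_map]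
        congr 1
        apply List.map_congr_left
        intro p _
        exact map_commutatorElement _ _ _
      rw [← this]
      rfl
    rw [e1, e2, e3] at h5
    exact h5

end cert

end Pool.Agent.K4H37.UG
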