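import Pool.Agent.K4H37.UG.Shape

/-!
# The universal group and uniform bounds
-/

set_option autoImplicit false

namespace Pool.Agent.K4H37.UG

open Matrix

section repr

variable {G : Type} {n : ℕ}

theorem card_support_le (x : GR G) : x.coeff.support.card ≤ size1 x := by
  unfold size1
  rw [Finset.card_eq_sum_ones]
  apply Finset.sum_le_sum
  intro g hg
  have := Finsupp.mem_support_iff.1 hg
  omega

theorem natAbs_le (x : GR G) (g : G) : (x.coeff g).natAbs ≤ size1 x := by
  by_cases h : g ∈ x.coeff.support
  · exact Finset.single_le_sum (f := fun g => (x.coeff g).natAbs) (fun _ _ => Nat.zero_le _) h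
  · rw [Finsupp.notMem_support_iff.1 h]
    exact Nat.zero_le _

theorem size1_le_size (M : Matrix (Fin n) (Fin n) (GR G)) (i j : Fin n) :
    size1 (M i j) ≤ size M :=
  (Finset.single_le_sum (f := fun j => size1 (M i j)) (fun _ _ => Nat.zero_le _)
    (Finset.mem_univ j)).trans
    (Finset.single_le_sum (f := fun i => ∑ j, size1 (M i j)) (fun _ _ => Nat.zero_le _)
      (Finset.mem_univ i))

open Classical in
/-- the support of a matrix -/
noncomputable def msup (M : Matrix (Fin n) (Fin n) (GR G)) : Finset G :=
  Finset.univ.biUnion fun i => Finset.univ.biUnion fun j => (M i j).coeff.support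

theorem mem_msup (M : Matrix (Fin n) (Fin n) (GR G)) (i j : Fin n) :
    (M i j).coeff.support ⊆ msup M := by
  classical
  intro g hg
  unfold msup
  rw [Finset.mem_biUnion]
  refine ⟨i, Finset.mem_univ _, ?_⟩
  rw [Finset.mem_biUnion]
  exact ⟨j, Finset.mem_univ _, hg⟩

theorem card_msup (M : Matrix (Fin n) (Fin n) (GR G)) : (msup M).card ≤ size M := by
  classical
  unfold msup size
  refine Finset.card_biUnion_le.trans (Finset.sum_le_sum fun i _ => ?_)
  exact Finset.card_biUnion_le.trans (Finset.sum_le_sum fun j _ => card_support_le _)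

theorem repr_comb (S : Finset G) (M : Matrix (Fin n) (Fin n) (GR G)) (hM : msup M ⊆ S) :
    comb (fun k : Fin S.card => ((S.equivFin.symm k : S) : G))
      (fun k p q => (M p q).coeff (S.equivFin.symm k : S)) = M := by
  classical
  ext1 p q
  change ∑ k : Fin S.card, MonoidAlgebra.single ((S.equivFin.symm k : S) : G)
    ((M p q).coeff (S.equivFin.symm k : S)) = M p q
  rw [Equiv.sum_comp S.equivFin.symm (fun x : S => (MonoidAlgebra.single (x : G)
    ((M p q).coeff (x : G)) : GR G))]
  rw [Finset.sum_coe_sort S (fun x : G => (MonoidAlgebra.single x ((M p q).coeff x) : GR G))]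
  have h1 : ∑ x ∈ (M p q).coeff.support, (MonoidAlgebra.single x ((M p q).coeff x) : GR G) =
      M p q := by
    apply MonoidAlgebra.coeff_injective
    rw [MonoidAlgebra.coeff_sum]
    exact Finsupp.sum_single _
  rw [← Finset.sum_subset ((mem_msup M p q).trans hM), h1]
  intro x _ hx
  rw [Finsupp.notMem_support_iff.1 hx, MonoidAlgebra.single_zero]

end repr

section data

/-- The data of a shape: the number `r` of letters, equations between words of length two, and the
coefficients of two matrices. -/
abbrev Data (n s : ℕ) : Type := Σ r : Fin (2 * s + 1), Finset (W r) ×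
  (Fin r → Fin n → Fin n → Fin (2 * s + 1)) × (Fin r → Fin n → Fin n → Fin (2 * s + 1))

variable {n s : ℕ}

/-- the group of the data: the largest torsion-free quotient of a finitely presented group -/
abbrev Data.grp (d : Data n s) : Type :=
  TF (PresentedGroup ((rels d.2.1 : Finset (FreeGroup (Fin d.1))) : Set (FreeGroup (Fin d.1))))

/-- the letters -/
def Data.let (d : Data n s) : Fin d.1 → d.grp :=
  fun k => QuotientGroup.mk' _ (PresentedGroup.of k)

/-- the coefficients -/
def dec {r n s : ℕ} (a : Fin r → Fin n → Fin n → Fin (2 * s + 1)) : Fin r → Fin n → Fin n → ℤ :=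
  fun k p q => (a k p q : ℤ) - s

/-- the data give mutually inverse matrices -/
def Data.Good (d : Data n s) : Prop :=
  comb d.let (dec d.2.2.1) * comb d.let (dec d.2.2.2) = 1 ∧
    comb d.let (dec d.2.2.2) * comb d.let (dec d.2.2.1) = 1

/-- the invertible matrix of the data -/
noncomputable def Data.mat (d : Data n s) (h : d.Good) : (Matrix (Fin n) (Fin n) (GR d.grp))ˣ :=
  ⟨_, _, h.1, h.2⟩

end data

/-- every invertible matrix over a torsion-free group is the image of the matrix of some data -/
theorem exists_data {Γ : Type} [Group Γ] (hΓ : TorsionFree Γ) {n s : ℕ}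
    (A : (Matrix (Fin n) (Fin n) (GR Γ))ˣ) (h1 : size A.val ≤ s) (h2 : size (A⁻¹).val ≤ s) :
    ∃ (d : Data n s) (hd : d.Good) (φ : d.grp →* Γ), umap φ (Fin n) (d.mat hd) = A := by
  classical
  set S : Finset Γ := msup A.val ∪ msup (A⁻¹).val with hS
  have hcard : S.card < 2 * s + 1 := by
    have h3 : S.card ≤ (msup A.val).card + (msup (A⁻¹).val).card := Finset.card_union_le _ _
    have h4 := card_msup A.val
    have h5 := card_msup (A⁻¹).val
    omega
  set e : Fin S.card → Γ := fun k => ((S.equivFin.symm k : S) : Γ) with he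
  set a : Fin S.card → Fin n → Fin n → ℤ :=
    fun k p q => (A.val p q).coeff (S.equivFin.symm k : S) with ha
  set b : Fin S.card → Fin n → Fin n → ℤ :=
    fun k p q => ((A⁻¹).val p q).coeff (S.equivFin.symm k : S) with hb
  have hA : comb e a = A.val := repr_comb S A.val Finset.subset_union_left
  have hB : comb e b = (A⁻¹).val := repr_comb S (A⁻¹).val Finset.subset_union_right
  have hab : comb e a * comb e b = 1 := by
    rw [hA, hB]
    exact A.mul_inv
  have hba : comb e b * comb e a = 1 := by
    rw [hA, hB]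
    exact A.inv_mul
  have ba : ∀ k p q, (a k p q).natAbs ≤ s := fun k p q =>
    ((natAbs_le _ _).trans (size1_le_size A.val p q)).trans h1
  have bb : ∀ k p q, (b k p q).natAbs ≤ s := fun k p q =>
    ((natAbs_le _ _).trans (size1_le_size (A⁻¹).val p q)).trans h2
  let enc : (c : Fin S.card → Fin n → Fin n → ℤ) → (∀ k p q, (c k p q).natAbs ≤ s) →
      Fin S.card → Fin n → Fin n → Fin (2 * s + 1) := fun c hc k p q =>
    ⟨(c k p q + s).toNat, by
      have := hc k p q
      omega⟩
  have hdec : ∀ c hc, dec (enc c hc) = c := by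
    intro c hc
    funext k p q
    change (((c k p q + s).toNat : ℕ) : ℤ) - s = c k p q
    have := hc k p q
    omega
  let d : Data n s := ⟨⟨S.card, hcard⟩, pat e, enc a ba, enc b bb⟩
  have hlet : ∀ c : Fin S.card → Fin n → Fin n → ℤ, comb d.let c = (comb (G := PresentedGroup ((rels (pat e) :
      Finset (FreeGroup (Fin S.card))) : Set (FreeGroup (Fin S.card)))) PresentedGroup.of c).map
      (rmap (QuotientGroup.mk' (torK _))) := by
    intro c
    exact (comb_map (QuotientGroup.mk' (torK _)) PresentedGroup.of c).symm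
  have hgood : ∀ c c' : Fin S.card → Fin n → Fin n → ℤ, comb e c * comb e c' = 1 → comb d.let c * comb d.let c' = 1 := by
    intro c c' hcc
    have h3 := pat_mul e c c' hcc
    rw [hlet, hlet, ← Matrix.map_mul, h3]
    exact Matrix.map_one _ (map_zero _) (map_one _)
  have hd : d.Good := by
    constructor
    · change comb d.let (dec (enc a ba)) * comb d.let (dec (enc b bb)) = 1
      rw [hdec a ba, hdec b bb]
      exact hgood a b hab
    · change comb d.let (dec (enc b bb)) * comb d.let (dec (enc a ba)) = 1
      rw [hdec a ba, hdec b bb]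
      exact hgood b a hba
  refine ⟨d, hd, liftTF hΓ (patMap e), ?_⟩
  apply Units.ext
  rw [umap_val]
  change (comb d.let (dec (enc a ba))).map (rmap (liftTF hΓ (patMap e))) = A.val
  rw [hdec a ba, comb_map, ← hA]
  congr 1
  funext k
  exact patMap_of e k

/-! ### the universal group -/

/-- the largest torsion-free quotients of the finitely presented groups -/
abbrev Fac (σ : Σ r : ℕ, Finset (FreeGroup (Fin r))) : Type :=
  TF (PresentedGroup (σ.2 : Set (FreeGroup (Fin σ.1))))

/-- The universal group: the restricted direct product of the largest torsion-free quotients of all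
finitely presented groups (on generators indexed by `Fin r`). -/
def Univ : Subgroup (∀ σ : (Σ r : ℕ, Finset (FreeGroup (Fin r))), Fac σ) where
  carrier := {f | {σ | f σ ≠ 1}.Finite}
  one_mem' := by
    have : {σ : (Σ r : ℕ, Finset (FreeGroup (Fin r))) | (1 : ∀ σ, Fac σ) σ ≠ 1} = ∅ := by
      ext σ
      simp
    rw [Set.mem_ofPred_eq, this]
    exact Set.finite_empty
  mul_mem' := by
    intro f g hf hg
    refine (hf.union hg).subset ?_
    intro σ hσ
    by_contra hcon
    simp only [Set.mem_union, Set.mem_ofPred_eq, not_or, not_not] at hcon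
    exact hσ (by rw [Pi.mul_apply, hcon.1, hcon.2, mul_one])
  inv_mem' := by
    intro f hf
    refine hf.subset ?_
    intro σ hσ hcon
    exact hσ (by rw [Pi.inv_apply, hcon, inv_one])

theorem univ_torsionFree : TorsionFree Univ := by
  intro f k hk hf
  apply Subtype.ext
  funext σ
  have h1 := congrFun (congrArg Subtype.val hf) σ
  exact tf_torsionFree (f.1 σ) k hk h1

theorem univ_countable : Countable Univ := by
  classical
  have hfac : ∀ σ : (Σ r : ℕ, Finset (FreeGroup (Fin r))), Countable (Fac σ) := fun σ => by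
    have h1 : Function.Surjective ((QuotientGroup.mk' (torK (PresentedGroup
        (σ.2 : Set (FreeGroup (Fin σ.1)))))).comp (PresentedGroup.mk _)) :=
      (QuotientGroup.mk'_surjective _).comp (PresentedGroup.mk_surjective _)
    exact h1.countable
  let ψ : (Σ s : Finset (Σ r : ℕ, Finset (FreeGroup (Fin r))), ∀ i : s, Fac i.1) → Univ :=
    fun x => ⟨fun σ => if h : σ ∈ x.1 then x.2 ⟨σ, h⟩ else 1, by
      refine (Finset.finite_toSet x.1).subset ?_
      intro σ hσ
      by_contra hcon
      apply hσ
      have : σ ∉ x.1 := hcon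
      simp [this]⟩
  have hψ : Function.Surjective ψ := by
    intro f
    refine ⟨⟨f.2.toFinset, fun i => f.1 i.1⟩, ?_⟩
    apply Subtype.ext
    funext σ
    change (if h : σ ∈ f.2.toFinset then f.1 σ else 1) = f.1 σ
    by_cases h : σ ∈ f.2.toFinset
    · rw [dif_pos h]
    · rw [dif_neg h]
      rw [Set.Finite.mem_toFinset] at h
      by_contra hne
      exact h fun h' => hne h'.symm
  have : ∀ s : Finset (Σ r : ℕ, Finset (FreeGroup (Fin r))), Countable (∀ i : s, Fac i.1) :=
    fun s => inferInstance
  exact hψ.countable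

/-- the inclusion of a factor -/
noncomputable def inc (σ : Σ r : ℕ, Finset (FreeGroup (Fin r))) : Fac σ →* Univ := by
  classical
  exact (MonoidHom.mulSingle Fac σ).codRestrict Univ (by
    intro x
    refine (Set.finite_singleton σ).subset ?_
    intro τ hτ
    by_contra hcon
    apply hτ
    exact Pi.mulSingle_eq_of_ne (fun h => hcon h) x)

/-- the projection to a factor -/
def prj (σ : Σ r : ℕ, Finset (FreeGroup (Fin r))) : Univ →* Fac σ :=
  (Pi.evalMonoidHom Fac σ).comp Univ.subtype

theorem prj_inc (σ : Σ r : ℕ, Finset (FreeGroup (Fin r))) :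
    (prj σ).comp (inc σ) = MonoidHom.id _ := by
  classical
  apply MonoidHom.ext
  intro x
  exact Pi.mulSingle_eq_same (M := Fac) σ x

/-- the vanishing of the Whitehead group -/
def WhZero (G : Type) [Group G] : Prop :=
  ∀ (n : ℕ) (A : (Matrix (Fin n) (Fin n) (GR G))ˣ), ZeroInWh A

theorem ZeroInWh.map {G H : Type} [Group G] [Group H] {n : ℕ}
    {A : (Matrix (Fin n) (Fin n) (GR G))ˣ} (h : ZeroInWh A) (φ : G →* H) :
    ZeroInWh (umap φ (Fin n) A) := by
  obtain ⟨N, hN⟩ := (zero_iff A).1 h
  exact (zero_iff _).2 ⟨N, hN.map φ⟩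

theorem main_univ (h : WhZero Univ) {Γ : Type} [Group Γ] (hΓ : TorsionFree Γ) : WhZero Γ := by
  intro n A
  obtain ⟨d, hd, φ, hφ⟩ := exists_data hΓ (s := size A.val + size (A⁻¹).val) A
    (Nat.le_add_right _ _) (Nat.le_add_left _ _)
  let σ : Σ r : ℕ, Finset (FreeGroup (Fin r)) := ⟨d.1, rels d.2.1⟩
  have h1 : ZeroInWh (umap (inc σ) (Fin n) (d.mat hd)) := h n _
  have h2 := h1.map (prj σ)
  rw [umap_comp, prj_inc, umap_id] at h2
  have h3 := h2.map φ
  rw [hφ] at h3
  exact h3

theorem main_bound (h : ∀ (Γ : Type) [Group Γ], TorsionFree Γ → WhZero Γ) (s : ℕ) :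
    ∃ N : ℕ, ∀ (Γ : Type) [Group Γ], TorsionFree Γ → ∀ n : ℕ, n ≤ s →
      ∀ A : (Matrix (Fin n) (Fin n) (GR Γ))ˣ, size A.val ≤ s → size (A⁻¹).val ≤ s → Cert N A := by
  classical
  have h1 : ∀ (n : ℕ) (d : Data n s), ∃ N, ∀ hd : d.Good, Cert N (d.mat hd) := by
    intro n d
    by_cases hd : d.Good
    · obtain ⟨N, hN⟩ := (zero_iff _).1 (h d.grp tf_torsionFree n (d.mat hd))
      exact ⟨N, fun _ => hN⟩
    · exact ⟨0, fun h => absurd h hd⟩
  choose N hN using h1
  refine ⟨(Finset.range (s + 1)).sup fun n => Finset.univ.sup (N n), ?_⟩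
  intro Γ _ hΓ n hn A hA hA'
  obtain ⟨d, hd, φ, rfl⟩ := exists_data hΓ A hA hA'
  refine ((hN n d hd).map φ).mono ?_
  exact (Finset.le_sup (f := N n) (Finset.mem_univ d)).trans
    (Finset.le_sup (f := fun n => Finset.univ.sup (N n)) (Finset.mem_range.2 (by omega)))

end Pool.Agent.K4H37.UG
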