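import Pool.Agent.K4H37.UG.Tf

/-!
# Shapes of invertible matrices, and the universal group
-/

set_option autoImplicit false

namespace Pool.Agent.K4H37.UG

open Matrix

section transfer

/-- an equation in the group ring of `Γ` between sums over a finite set transfers to `H` if the
equalities between the group elements do -/
theorem transfer {ι Γ H : Type} [Fintype ι] [Group Γ] [Group H] (f : ι → H) (f' : ι → Γ)
    (c : ι → ℤ) (δ : ℤ) (h1 : ∀ i j, f i = f j ↔ f' i = f' j) (h2 : ∀ i, f i = 1 ↔ f' i = 1)
    (h : ∑ i, MonoidAlgebra.single (f' i) (c i) = (MonoidAlgebra.single 1 δ : GR Γ)) :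
    ∑ i, MonoidAlgebra.single (f i) (c i) = (MonoidAlgebra.single 1 δ : GR H) := by
  classical
  have key : ∀ (K : Type) [Group K] (u : ι → K) (y : K),
      (∑ i, MonoidAlgebra.single (u i) (c i) : GR K).coeff y = ∑ i, if u i = y then c i else 0 := by
    intro K _ u y
    rw [MonoidAlgebra.coeff_sum, Finsupp.finsetSum_apply]
    apply Finset.sum_congr rfl
    intro i _
    rw [MonoidAlgebra.coeff_single]
    exact Finsupp.single_apply
  have hc : ∀ y : Γ, (∑ i, if f' i = y then c i else 0) = if (1 : Γ) = y then δ else 0 := by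
    intro y
    rw [← key, h, MonoidAlgebra.coeff_single]
    exact Finsupp.single_apply
  apply MonoidAlgebra.coeff_injective
  ext y
  rw [key, MonoidAlgebra.coeff_single, Finsupp.single_apply]
  by_cases hy : ∃ i, f i = y
  · obtain ⟨i0, rfl⟩ := hy
    have h3 := hc (f' i0)
    have e1 : (∑ i, if f i = f i0 then c i else 0) = ∑ i, if f' i = f' i0 then c i else 0 := by
      apply Finset.sum_congr rfl
      intro i _
      by_cases h4 : f i = f i0
      · rw [if_pos h4, if_pos ((h1 _ _).1 h4)]
      · rw [if_neg h4, if_neg fun h5 => h4 ((h1 _ _).2 h5)]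
    rw [e1, h3]
    by_cases h4 : f i0 = 1
    · rw [if_pos h4.symm, if_pos ((h2 _).1 h4).symm]
    · have h6 : ¬ (1 : Γ) = f' i0 := fun h5 => h4 ((h2 _).2 h5.symm)
      have h7 : ¬ (1 : H) = f i0 := fun h5 => h4 h5.symm
      rw [if_neg h6, if_neg h7]
  · have e1 : (∑ i, if f i = y then c i else 0) = 0 := by
      apply Finset.sum_eq_zero
      intro i _
      rw [if_neg fun h5 => hy ⟨i, h5⟩]
    rw [e1]
    by_cases h4 : (1 : H) = y
    · rw [if_pos h4]
      have h3 := hc 1
      rw [if_pos rfl] at h3
      rw [← h3]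
      symm
      apply Finset.sum_eq_zero
      intro i _
      rw [if_neg fun h5 => hy ⟨i, ((h2 i).2 h5).trans h4⟩]
    · rw [if_neg h4]

end transfer

section comb

variable {G H : Type} [Group G] [Group H] {r n : ℕ}

/-- the matrix with the coefficients `a k` at `e k` -/
noncomputable def comb (e : Fin r → G) (a : Fin r → Fin n → Fin n → ℤ) :
    Matrix (Fin n) (Fin n) (GR G) :=
  Matrix.of fun p q => ∑ k, MonoidAlgebra.single (e k) (a k p q)

theorem comb_map (φ : G →* H) (e : Fin r → G) (a : Fin r → Fin n → Fin n → ℤ) :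
    (comb e a).map (rmap φ) = comb (fun k => φ (e k)) a := by
  ext1 p q
  change rmap φ (∑ k, MonoidAlgebra.single (e k) (a k p q)) = _
  rw [map_sum]
  apply Finset.sum_congr rfl
  intro k _
  exact rmap_single φ _ _

theorem comb_mul_apply (e : Fin r → G) (a b : Fin r → Fin n → Fin n → ℤ) (p q : Fin n) :
    (comb e a * comb e b) p q = ∑ x : Fin r × Fin r,
      MonoidAlgebra.single (e x.1 * e x.2) (∑ t, a x.1 p t * b x.2 t q) := by
  rw [Matrix.mul_apply]
  have h1 : ∀ t, comb e a p t * comb e b t q = ∑ x : Fin r × Fin r,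
      (MonoidAlgebra.single (e x.1 * e x.2) (a x.1 p t * b x.2 t q) : GR G) := by
    intro t
    change (∑ k, MonoidAlgebra.single (e k) (a k p t)) *
      (∑ k, MonoidAlgebra.single (e k) (b k t q)) = _
    rw [Finset.sum_mul_sum, Fintype.sum_prod_type]
    apply Finset.sum_congr rfl
    intro k _
    apply Finset.sum_congr rfl
    intro l _
    exact MonoidAlgebra.single_mul_single ..
  rw [Finset.sum_congr rfl fun t _ => h1 t, Finset.sum_comm]
  apply Finset.sum_congr rfl
  intro x _
  apply MonoidAlgebra.coeff_injective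
  rw [MonoidAlgebra.coeff_sum]
  simp only [MonoidAlgebra.coeff_single]
  rw [← Finsupp.single_finsetSum]

/-- words of length two and equations between them -/
abbrev W (r : ℕ) : Type := (Fin r × Fin r) × Option (Fin r × Fin r)

/-- the relator of an equation -/
def wd {r : ℕ} : W r → FreeGroup (Fin r)
  | (x, none) => FreeGroup.of x.1 * FreeGroup.of x.2
  | (x, some y) => FreeGroup.of x.1 * FreeGroup.of x.2 *
      (FreeGroup.of y.1 * FreeGroup.of y.2)⁻¹

open Classical in
/-- the relators as a finite set -/
noncomputable def rels {r : ℕ} (P : Finset (W r)) : Finset (FreeGroup (Fin r)) := P.image wd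

open Classical in
/-- the equations satisfied by `e` -/
noncomputable def pat (e : Fin r → G) : Finset (W r) :=
  Finset.univ.filter fun w => FreeGroup.lift e (wd w) = 1

theorem pat_hom (e : Fin r → G) :
    ∀ w ∈ ((rels (pat e) : Finset (FreeGroup (Fin r))) : Set (FreeGroup (Fin r))),
      FreeGroup.lift e w = 1 := by
  classical
  intro w hw
  rw [Finset.mem_coe, rels, Finset.mem_image] at hw
  obtain ⟨x, hx, rfl⟩ := hw
  exact (Finset.mem_filter.1 hx).2

/-- the homomorphism from the group given by the equations satisfied by `e` -/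
def patMap (e : Fin r → G) :
    PresentedGroup ((rels (pat e) : Finset (FreeGroup (Fin r))) : Set (FreeGroup (Fin r))) →* G :=
  PresentedGroup.toGroup (f := e) (pat_hom e)

theorem patMap_of (e : Fin r → G) (k : Fin r) : patMap e (PresentedGroup.of k) = e k :=
  PresentedGroup.toGroup.of (pat_hom e)

theorem pat_eq (e : Fin r → G) (x y : Fin r × Fin r) :
    (PresentedGroup.of x.1 * PresentedGroup.of x.2 :
      PresentedGroup ((rels (pat e) : Finset (FreeGroup (Fin r))) : Set (FreeGroup (Fin r)))) =
      PresentedGroup.of y.1 * PresentedGroup.of y.2 ↔ e x.1 * e x.2 = e y.1 * e y.2 := by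
  classical
  constructor
  · intro h
    have := congrArg (patMap e) h
    rwa [map_mul, map_mul, patMap_of, patMap_of, patMap_of, patMap_of] at this
  · intro h
    have h1 : wd (x, some y) ∈ rels (pat e) := by
      apply Finset.mem_image_of_mem
      rw [pat, Finset.mem_filter]
      refine ⟨Finset.mem_univ _, ?_⟩
      change FreeGroup.lift e (FreeGroup.of x.1 * FreeGroup.of x.2 *
        (FreeGroup.of y.1 * FreeGroup.of y.2)⁻¹) = 1
      rw [map_mul, map_mul, map_inv, map_mul]
      simp only [FreeGroup.lift_apply_of]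
      rw [h, mul_inv_cancel]
    have h2 : (PresentedGroup.mk ((rels (pat e) : Finset (FreeGroup (Fin r))) :
        Set (FreeGroup (Fin r))) (wd (x, some y))) = 1 :=
      PresentedGroup.one_of_mem (Finset.mem_coe.2 h1)
    change PresentedGroup.mk _ (FreeGroup.of x.1 * FreeGroup.of x.2 *
        (FreeGroup.of y.1 * FreeGroup.of y.2)⁻¹) = 1 at h2
    rw [map_mul, map_mul, map_inv, map_mul, mul_inv_eq_one] at h2
    exact h2

theorem pat_one (e : Fin r → G) (x : Fin r × Fin r) :
    (PresentedGroup.of x.1 * PresentedGroup.of x.2 :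
      PresentedGroup ((rels (pat e) : Finset (FreeGroup (Fin r))) : Set (FreeGroup (Fin r)))) =
      1 ↔ e x.1 * e x.2 = 1 := by
  classical
  constructor
  · intro h
    have := congrArg (patMap e) h
    rwa [map_mul, map_one, patMap_of, patMap_of] at this
  · intro h
    have h1 : wd (x, none) ∈ rels (pat e) := by
      apply Finset.mem_image_of_mem
      rw [pat, Finset.mem_filter]
      refine ⟨Finset.mem_univ _, ?_⟩
      change FreeGroup.lift e (FreeGroup.of x.1 * FreeGroup.of x.2) = 1
      rw [map_mul]
      simp only [FreeGroup.lift_apply_of]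
      exact h
    have h2 : (PresentedGroup.mk ((rels (pat e) : Finset (FreeGroup (Fin r))) :
        Set (FreeGroup (Fin r))) (wd (x, none))) = 1 :=
      PresentedGroup.one_of_mem (Finset.mem_coe.2 h1)
    change PresentedGroup.mk _ (FreeGroup.of x.1 * FreeGroup.of x.2) = 1 at h2
    rw [map_mul] at h2
    exact h2

/-- the equation `A B = 1` transfers to the group given by the equations -/
theorem pat_mul (e : Fin r → G) (a b : Fin r → Fin n → Fin n → ℤ)
    (h : comb e a * comb e b = 1) :
    comb (G := PresentedGroup ((rels (pat e) : Finset (FreeGroup (Fin r))) :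
      Set (FreeGroup (Fin r)))) PresentedGroup.of a * comb PresentedGroup.of b = 1 := by
  ext1 p q
  have h1 := congrFun (congrFun h p) q
  rw [comb_mul_apply] at h1 ⊢
  have one_eq : ∀ (K : Type) [Group K], (1 : Matrix (Fin n) (Fin n) (GR K)) p q =
      MonoidAlgebra.single 1 (if p = q then (1 : ℤ) else 0) := by
    intro K _
    rw [Matrix.one_apply]
    by_cases hpq : p = q
    · rw [if_pos hpq, if_pos hpq]
      rfl
    · rw [if_neg hpq, if_neg hpq, MonoidAlgebra.single_zero]
  rw [one_eq] at h1 ⊢
  exact transfer _ _ _ _ (pat_eq e) (pat_one e) h1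

end comb

end Pool.Agent.K4H37.UG
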