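import Pool.Agent.K4H37.UG.Basic

/-!
# The largest torsion-free quotient, and lifting of certificates
-/

set_option autoImplicit false

namespace Pool.Agent.K4H37.UG

open Matrix
open scoped commutatorElement

section tf

variable {G : Type} [Group G]

/-- the normal closure of the members of a list -/
abbrev ncl (l : List G) : Subgroup G := Subgroup.normalClosure {x | x ∈ l}

/-- Every member of the list has finite order modulo the normal closure of the later members. -/
inductive Kills : List G → Prop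
  | nil : Kills []
  | cons (g : G) (l : List G) (m : ℕ) : Kills l → 0 < m → g ^ m ∈ ncl l → Kills (g :: l)

theorem ncl_mono {l l' : List G} (h : ∀ x ∈ l, x ∈ ncl l') : ncl l ≤ ncl l' :=
  Subgroup.normalClosure_le_normal fun x hx => h x hx

theorem mem_ncl {l : List G} {x : G} (hx : x ∈ l) : x ∈ ncl l :=
  Subgroup.subset_normalClosure hx

theorem ncl_left (l l' : List G) : ncl l ≤ ncl (l ++ l') :=
  ncl_mono fun _ hx => mem_ncl (List.mem_append_left _ hx)

theorem ncl_right (l l' : List G) : ncl l' ≤ ncl (l ++ l') :=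
  ncl_mono fun _ hx => mem_ncl (List.mem_append_right _ hx)

theorem Kills.append {l l' : List G} (h : Kills l) (h' : Kills l') : Kills (l ++ l') := by
  induction h with
  | nil => exact h'
  | cons g l m _ hm hg ih => exact Kills.cons g (l ++ l') m ih hm (ncl_left l l' hg)

variable (G) in
/-- the kernel of the projection to the largest torsion-free quotient -/
def torK : Subgroup G where
  carrier := {x | ∃ l, Kills l ∧ x ∈ ncl l}
  one_mem' := ⟨[], Kills.nil, Subgroup.one_mem _⟩
  mul_mem' := by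
    rintro x y ⟨l, hl, hx⟩ ⟨l', hl', hy⟩
    exact ⟨l ++ l', hl.append hl', Subgroup.mul_mem _ (ncl_left _ _ hx) (ncl_right _ _ hy)⟩
  inv_mem' := by
    rintro x ⟨l, hl, hx⟩
    exact ⟨l, hl, Subgroup.inv_mem _ hx⟩

instance : (torK G).Normal where
  conj_mem := by
    rintro x ⟨l, hl, hx⟩ g
    exact ⟨l, hl, Subgroup.normalClosure_normal.conj_mem x hx g⟩

theorem ncl_le {l : List G} (h : Kills l) : ncl l ≤ torK G := fun _ hx => ⟨l, h, hx⟩

variable (G) in
/-- the largest torsion-free quotient -/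
abbrev TF : Type := G ⧸ torK G

/-- `G` has no element of finite order except `1` (the form of the frozen statement). -/
def TorsionFree (G : Type) [Group G] : Prop := ∀ g : G, ∀ k : ℕ, 0 < k → g ^ k = 1 → g = 1

theorem tf_torsionFree : TorsionFree (TF G) := by
  intro x
  obtain ⟨g, rfl⟩ := QuotientGroup.mk_surjective x
  intro k hk h
  have h1 : g ^ k ∈ torK G := (QuotientGroup.eq_one_iff _).1 h
  obtain ⟨l, hl, h2⟩ := h1
  exact (QuotientGroup.eq_one_iff _).2 ⟨g :: l, Kills.cons g l k hl hk h2,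
    mem_ncl List.mem_cons_self⟩

theorem kills_map {Γ : Type} [Group Γ] (hΓ : TorsionFree Γ) (φ : G →* Γ) {l : List G}
    (h : Kills l) : ncl l ≤ φ.ker := by
  induction h with
  | nil =>
    apply Subgroup.normalClosure_le_normal
    intro x hx
    simp at hx
  | cons g l m _ hm hg ih =>
    apply Subgroup.normalClosure_le_normal
    intro x hx
    rcases List.mem_cons.1 hx with rfl | hx
    · have := ih hg
      rw [MonoidHom.mem_ker, map_pow] at this
      exact hΓ _ m hm this
    · exact ih (mem_ncl hx)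

/-- the homomorphism from the largest torsion-free quotient to a torsion-free group -/
def liftTF {Γ : Type} [Group Γ] (hΓ : TorsionFree Γ) (φ : G →* Γ) : TF G →* Γ :=
  QuotientGroup.lift (torK G) φ (by
    rintro x ⟨l, hl, hx⟩
    exact kills_map hΓ φ hl hx)

theorem liftTF_comp {Γ : Type} [Group Γ] (hΓ : TorsionFree Γ) (φ : G →* Γ) :
    (liftTF hΓ φ).comp (QuotientGroup.mk' (torK G)) = φ := by
  ext x
  rfl

end tf

section ev

variable {G : Type} [Group G]

/-- `P` holds for all large killing lists -/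
def Ev (P : List G → Prop) : Prop := ∃ l0, Kills l0 ∧ ∀ l, Kills l → ncl l0 ≤ ncl l → P l

theorem Ev.mono {P Q : List G → Prop} (h : Ev P) (hPQ : ∀ l, Kills l → P l → Q l) : Ev Q := by
  obtain ⟨l0, h0, h⟩ := h
  exact ⟨l0, h0, fun l hl hle => hPQ l hl (h l hl hle)⟩

theorem Ev.of_forall {P : List G → Prop} (h : ∀ l, Kills l → P l) : Ev P :=
  ⟨[], Kills.nil, fun l hl _ => h l hl⟩

theorem Ev.and {P Q : List G → Prop} (h : Ev P) (h' : Ev Q) : Ev fun l => P l ∧ Q l := by
  obtain ⟨l0, h0, h⟩ := h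
  obtain ⟨l1, h1, h'⟩ := h'
  exact ⟨l0 ++ l1, h0.append h1, fun l hl hle => ⟨h l hl ((ncl_left _ _).trans hle),
    h' l hl ((ncl_right _ _).trans hle)⟩⟩

theorem Ev.all {ι : Type} (s : Finset ι) {P : ι → List G → Prop} (h : ∀ i ∈ s, Ev (P i)) :
    Ev fun l => ∀ i ∈ s, P i l := by
  classical
  induction s using Finset.induction_on with
  | empty => exact Ev.of_forall fun l _ i hi => absurd hi (Finset.notMem_empty i)
  | insert a s ha ih =>
    have h1 := (h a (Finset.mem_insert_self a s)).and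
      (ih fun i hi => h i (Finset.mem_insert_of_mem hi))
    refine h1.mono fun l _ hl i hi => ?_
    rcases Finset.mem_insert.1 hi with rfl | hi
    · exact hl.1
    · exact hl.2 i hi

theorem Ev.exists {P : List G → Prop} (h : Ev P) : ∃ l, Kills l ∧ P l := by
  obtain ⟨l0, h0, h⟩ := h
  exact ⟨l0, h0, h l0 h0 le_rfl⟩

theorem ev_mem {x : G} (hx : x ∈ torK G) : Ev fun l => x ∈ ncl l := by
  obtain ⟨l0, h0, h⟩ := hx
  exact ⟨l0, h0, fun l _ hle => hle h⟩

omit [Group G] in
theorem coeff_mapDomain {H : Type} [DecidableEq H] (f : G → H) (x : GR G) (q : H) :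
    (MonoidAlgebra.mapDomain f x).coeff q =
      ∑ g ∈ x.coeff.support, if f g = q then x.coeff g else 0 := by
  change (Finsupp.mapDomain f x.coeff) q = _
  rw [Finsupp.mapDomain, Finsupp.sum_apply]
  apply Finset.sum_congr rfl
  intro g _
  exact Finsupp.single_apply

theorem ev_zero {x : GR G} (hx : rmap (QuotientGroup.mk' (torK G)) x = 0) :
    Ev fun l => rmap (QuotientGroup.mk' (ncl l)) x = 0 := by
  classical
  have h1 : Ev fun l => ∀ p ∈ x.coeff.support ×ˢ x.coeff.support,
      ((p.1⁻¹ * p.2 ∈ ncl l) ↔ (p.1⁻¹ * p.2 ∈ torK G)) := by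
    apply Ev.all
    intro p _
    by_cases hp : p.1⁻¹ * p.2 ∈ torK G
    · exact (ev_mem hp).mono fun l _ hl => ⟨fun _ => hp, fun _ => hl⟩
    · exact Ev.of_forall fun l hl => ⟨fun h => absurd (ncl_le hl h) hp, fun h => absurd h hp⟩
  refine h1.mono fun l hl h => ?_
  apply MonoidAlgebra.coeff_injective
  ext q
  rw [rmap_apply, coeff_mapDomain]
  by_cases hq : ∃ g ∈ x.coeff.support, QuotientGroup.mk' (ncl l) g = q
  · obtain ⟨h0, hh0, rfl⟩ := hq
    have h2 : (MonoidAlgebra.mapDomain (QuotientGroup.mk' (torK G)) x).coeff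
        (QuotientGroup.mk' (torK G) h0) = 0 := by
      rw [← rmap_apply, hx]
      rfl
    rw [coeff_mapDomain] at h2
    refine Eq.trans ?_ h2
    apply Finset.sum_congr rfl
    intro g hg
    have h3 := h (g, h0) (Finset.mem_product.2 ⟨hg, hh0⟩)
    have h4 : (QuotientGroup.mk' (ncl l) g = QuotientGroup.mk' (ncl l) h0) ↔
        (QuotientGroup.mk' (torK G) g = QuotientGroup.mk' (torK G) h0) := by
      rw [QuotientGroup.mk'_apply, QuotientGroup.mk'_apply, QuotientGroup.mk'_apply,
        QuotientGroup.mk'_apply, QuotientGroup.eq, QuotientGroup.eq]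
      exact h3
    by_cases h5 : QuotientGroup.mk' (ncl l) g = QuotientGroup.mk' (ncl l) h0
    · rw [if_pos h5, if_pos (h4.1 h5)]
    · rw [if_neg h5, if_neg (fun h6 => h5 (h4.2 h6))]
  · apply Finset.sum_eq_zero
    intro g hg
    rw [if_neg fun h6 => hq ⟨g, hg, h6⟩]

variable {κ : Type} [Fintype κ] [DecidableEq κ]

theorem ev_eq {M M' : Matrix κ κ (GR G)}
    (h : mmap (QuotientGroup.mk' (torK G)) κ M = mmap (QuotientGroup.mk' (torK G)) κ M') :
    Ev fun l => mmap (QuotientGroup.mk' (ncl l)) κ M = mmap (QuotientGroup.mk' (ncl l)) κ M' := by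
  have h1 : Ev fun l => ∀ p ∈ (Finset.univ : Finset (κ × κ)),
      rmap (QuotientGroup.mk' (ncl l)) (M p.1 p.2 - M' p.1 p.2) = 0 := by
    apply Ev.all
    intro p _
    apply ev_zero
    rw [map_sub, sub_eq_zero]
    exact congrFun (congrFun h p.1) p.2
  refine h1.mono fun l _ hl => ?_
  ext1 i j
  have h2 := hl (i, j) (Finset.mem_univ _)
  rw [map_sub, sub_eq_zero] at h2
  exact h2

theorem mmap_surj (M : Matrix κ κ (GR (TF G))) :
    ∃ M', mmap (QuotientGroup.mk' (torK G)) κ M' = M := by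
  have hs : Function.Surjective (rmap (QuotientGroup.mk' (torK G))) := by
    intro x
    obtain ⟨v, hv⟩ := Finsupp.mapDomain_surjective (M := ℤ)
      (QuotientGroup.mk'_surjective (torK G)) x.coeff
    exact ⟨MonoidAlgebra.ofCoeff v, MonoidAlgebra.coeff_injective hv⟩
  choose f hf using hs
  exact ⟨Matrix.of fun i j => f (M i j), by
    ext1 i j
    exact hf _⟩

/-- `M` and `M'` are lifts of `C` and `C⁻¹` which are eventually such lifts of commutators -/
def Lifts (C : (Matrix κ κ (GR (TF G)))ˣ) (M M' : Matrix κ κ (GR G)) (cm : Prop) : Prop :=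
  mmap (QuotientGroup.mk' (torK G)) κ M = C.val ∧
  mmap (QuotientGroup.mk' (torK G)) κ M' = (C⁻¹).val ∧
  Ev fun l => ∃ C' : (Matrix κ κ (GR (G ⧸ ncl l)))ˣ,
    (cm → C' ∈ commutator (Matrix κ κ (GR (G ⧸ ncl l)))ˣ) ∧
    C'.val = mmap (QuotientGroup.mk' (ncl l)) κ M ∧
    (C'⁻¹).val = mmap (QuotientGroup.mk' (ncl l)) κ M'

theorem lifts_unit (C : (Matrix κ κ (GR (TF G)))ˣ) : ∃ M M', Lifts C M M' False := by
  obtain ⟨M, hM⟩ := mmap_surj C.val
  obtain ⟨M', hM'⟩ := mmap_surj (C⁻¹).val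
  refine ⟨M, M', hM, hM', ?_⟩
  have h1 : Ev fun l => mmap (QuotientGroup.mk' (ncl l)) κ (M * M') =
      mmap (QuotientGroup.mk' (ncl l)) κ 1 := by
    apply ev_eq
    rw [map_mul, hM, hM', map_one]
    exact C.mul_inv
  have h2 : Ev fun l => mmap (QuotientGroup.mk' (ncl l)) κ (M' * M) =
      mmap (QuotientGroup.mk' (ncl l)) κ 1 := by
    apply ev_eq
    rw [map_mul, hM, hM', map_one]
    exact C.inv_mul
  refine (h1.and h2).mono fun l _ hl => ?_
  rw [map_mul, map_mul, map_one] at hl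
  exact ⟨⟨_, _, hl.1, hl.2⟩, fun h => h.elim, rfl, rfl⟩

theorem lifts_comm {C : (Matrix κ κ (GR (TF G)))ˣ}
    (hC : C ∈ commutator (Matrix κ κ (GR (TF G)))ˣ) : ∃ M M', Lifts C M M' True := by
  rw [commutator_eq_closure] at hC
  induction hC using Subgroup.closure_induction with
  | mem x hx =>
    obtain ⟨a, b, rfl⟩ := hx
    obtain ⟨Ma, Ma', ha1, ha2, ha3⟩ := lifts_unit a
    obtain ⟨Mb, Mb', hb1, hb2, hb3⟩ := lifts_unit b
    refine ⟨Ma * Mb * Ma' * Mb', Mb * Ma * Mb' * Ma', ?_, ?_, ?_⟩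
    · rw [map_mul, map_mul, map_mul, ha1, ha2, hb1, hb2]
      rfl
    · rw [map_mul, map_mul, map_mul, ha1, ha2, hb1, hb2, commutatorElement_inv]
      rfl
    · refine (ha3.and hb3).mono fun l _ hl => ?_
      obtain ⟨⟨a', _, h1, h2⟩, b', _, h3, h4⟩ := hl
      refine ⟨⁅a', b'⁆, fun _ => Subgroup.commutator_mem_commutator (Subgroup.mem_top _)
        (Subgroup.mem_top _), ?_, ?_⟩
      · rw [map_mul, map_mul, map_mul, ← h1, ← h2, ← h3, ← h4]
        rfl
      · rw [commutatorElement_inv, map_mul, map_mul, map_mul, ← h1, ← h2, ← h3, ← h4]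
        rfl
  | one =>
    refine ⟨1, 1, map_one _, ?_, Ev.of_forall fun l _ => ⟨1, fun _ => Subgroup.one_mem _,
      (map_one _).symm, ?_⟩⟩
    · rw [inv_one]
      exact map_one _
    · rw [inv_one]
      exact (map_one _).symm
  | mul x y _ _ hx hy =>
    obtain ⟨M, M', h1, h2, h3⟩ := hx
    obtain ⟨N, N', k1, k2, k3⟩ := hy
    refine ⟨M * N, N' * M', ?_, ?_, ?_⟩
    · rw [map_mul, h1, k1]
      rfl
    · rw [map_mul, h2, k2, _root_.mul_inv_rev]
      rfl
    · refine (h3.and k3).mono fun l _ hl => ?_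
      obtain ⟨⟨a', ha, h1, h2⟩, b', hb, h3, h4⟩ := hl
      refine ⟨a' * b', fun _ => Subgroup.mul_mem _ (ha trivial) (hb trivial), ?_, ?_⟩
      · rw [map_mul, ← h1, ← h3]
        rfl
      · rw [map_mul, ← h2, ← h4, _root_.mul_inv_rev]
        rfl
  | inv x _ hx =>
    obtain ⟨M, M', h1, h2, h3⟩ := hx
    refine ⟨M', M, h2, ?_, ?_⟩
    · rw [inv_inv]
      exact h1
    · refine h3.mono fun l _ hl => ?_
      obtain ⟨a', ha, h1, h2⟩ := hl
      refine ⟨a'⁻¹, fun _ => Subgroup.inv_mem _ (ha trivial), h2, ?_⟩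
      rw [inv_inv]
      exact h1

/-- the stabilisation of a matrix -/
theorem mmap_stab {H : Type} [Group H] (φ : G →* H) {n : ℕ} (m : ℕ)
    (A : Matrix (Fin n) (Fin n) (GR G)) :
    mmap φ (Fin n ⊕ Fin (m + 1)) (Matrix.fromBlocks A 0 0 1) =
      Matrix.fromBlocks (A.map (rmap φ)) 0 0 1 := by
  change (Matrix.fromBlocks A 0 0 1).map (rmap φ) = _
  rw [Matrix.fromBlocks_map]
  rw [Matrix.map_zero _ (map_zero (rmap φ)), Matrix.map_zero _ (map_zero (rmap φ)),
    Matrix.map_one _ (map_zero (rmap φ)) (map_one (rmap φ))]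

theorem mmap_tri {H : Type} [Group H] (φ : G →* H) (n m : ℕ) (g : G) (ε : ℤˣ) :
    mmap φ (Fin n ⊕ Fin (m + 1)) (Matrix.diagonal (fun i : Fin n ⊕ Fin (m + 1) =>
          if i = Sum.inr (0 : Fin (m + 1)) then
            (MonoidAlgebra.single g ((ε : ℤ)) : MonoidAlgebra ℤ G) else 1)) =
        Matrix.diagonal (fun i : Fin n ⊕ Fin (m + 1) =>
          if i = Sum.inr (0 : Fin (m + 1)) then
            (MonoidAlgebra.single (φ g) ((ε : ℤ)) : MonoidAlgebra ℤ H) else 1) := by
  change (Matrix.diagonal _).map (rmap φ) = _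
  rw [Matrix.diagonal_map (map_zero _)]
  congr 1
  funext i
  by_cases hi : i = Sum.inr (0 : Fin (m + 1))
  · rw [if_pos hi, if_pos hi]
    exact rmap_single φ g _
  · rw [if_neg hi, if_neg hi]
    exact map_one _

/-- **Killing torsion**: if the class of `A` vanishes over the largest torsion-free quotient of `G`,
then it vanishes after killing finitely many elements of finite order, one after the other. -/
theorem kill_of_tf {n : ℕ} (A : (Matrix (Fin n) (Fin n) (GR G))ˣ)
    (h : ZeroInWh (umap (QuotientGroup.mk' (torK G)) (Fin n) A)) :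
    ∃ l, Kills l ∧ ZeroInWh (umap (QuotientGroup.mk' (ncl l)) (Fin n) A) := by
  obtain ⟨m, q, ε, C, hC, h⟩ := h
  obtain ⟨g, rfl⟩ := QuotientGroup.mk'_surjective (torK G) q
  obtain ⟨M, M', h1, h2, h3⟩ := lifts_comm hC
  have h4 : Ev fun l => mmap (QuotientGroup.mk' (ncl l)) (Fin n ⊕ Fin (m + 1))
      (Matrix.fromBlocks A.val 0 0 1) = mmap (QuotientGroup.mk' (ncl l)) (Fin n ⊕ Fin (m + 1))
      ((Matrix.diagonal (fun i : Fin n ⊕ Fin (m + 1) =>
          if i = Sum.inr (0 : Fin (m + 1)) then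
            (MonoidAlgebra.single g ((ε : ℤ)) : MonoidAlgebra ℤ G) else 1)) * M) := by
    apply ev_eq
    rw [map_mul, mmap_stab, mmap_tri, h1]
    exact h
  obtain ⟨l, hl, h5, C', hC', h6, h7⟩ := (h4.and h3).exists
  refine ⟨l, hl, m, QuotientGroup.mk' (ncl l) g, ε, C', hC' trivial, ?_⟩
  rw [map_mul, mmap_stab, mmap_tri, ← h6] at h5
  exact h5

end ev

end Pool.Agent.K4H37.UG
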